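import Pool.Agent.Q279.BM.Data

/-!
# Elimination: a multiple of `t⁶` lies in the ideal of the quadrics and of the cubic form
-/

set_option autoImplicit false

namespace Pool.Agent.Q279.BM

theorem cert_t (x y z t : ℤ) : 6879232 * t ^ 6 =
    (-345808 * x ^ 4 - 1456417 * x ^ 3 * y + 85392 * x ^ 3 * z + 1079329 * x ^ 3 * t + 749 * x ^
    2 * y ^ 2 + 153348 * x ^ 2 * y * z + 531384 * x ^ 2 * y * t - 345808 * x ^ 2 * z ^ 2 -
    1682715 * x ^ 2 * z * t + 1920532 * x ^ 2 * t ^ 2 + 5564139 * x * y ^ 3 - 817087 * x * y ^ 2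
    * z + 3297259 * x * y ^ 2 * t + 2047507 * x * y * z ^ 2 + 456348 * x * y * z * t + 1483073 *
    x * y * t ^ 2 - 260416 * x * z ^ 3 + 3698845 * x * z ^ 2 * t + 1454633 * x * z * t ^ 2 -
    4564369 * x * t ^ 3 - 78492 * y ^ 4 - 4317559 * y ^ 3 * z + 823227 * y ^ 3 * t + 1645130 * y
    ^ 2 * z ^ 2 - 1591467 * y ^ 2 * z * t + 2066196 * y ^ 2 * t ^ 2 - 618866 * y * z ^ 3 -
    1461602 * y * z ^ 2 * t + 403861 * y * z * t ^ 2 + 2032225 * y * t ^ 3 + 85392 * z ^ 4 -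
    847450 * z ^ 3 * t - 3553640 * z ^ 2 * t ^ 2 + 10649780 * z * t ^ 3 + 14359335 * t ^ 4) * q0 x y z t +
    (6070688 * x ^ 4 + 4311659 * x ^ 3 * y - 13057833 * x ^ 3 * z + 1607980 * x ^ 3 * t - 1165317
    * x ^ 2 * y ^ 2 - 4253700 * x ^ 2 * y * z - 5744352 * x ^ 2 * y * t + 6151381 * x ^ 2 * z ^
    2 + 309105 * x ^ 2 * z * t - 5952637 * x ^ 2 * t ^ 2 + 13274888 * x * y ^ 3 - 7600157 * x *
    y ^ 2 * z + 13888992 * x * y ^ 2 * t + 8512811 * x * y * z ^ 2 - 3805719 * x * y * z * t +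
    15540111 * x * y * t ^ 2 - 3255472 * x * z ^ 3 + 4591894 * x * z ^ 2 * t - 6026754 * x * z *
    t ^ 2 + 5846781 * x * t ^ 3 + 844810 * y ^ 4 - 4121531 * y ^ 3 * z + 3686909 * y ^ 3 * t -
    1669427 * y ^ 2 * z ^ 2 - 4936830 * y ^ 2 * z * t + 3707892 * y ^ 2 * t ^ 2 - 6798024 * y *
    z ^ 3 - 8273424 * y * z ^ 2 * t - 1360641 * y * z * t ^ 2 + 3188071 * y * t ^ 3 - 7626009 *
    z ^ 4 - 2043155 * z ^ 3 * t - 11858202 * z ^ 2 * t ^ 2 + 20792467 * z * t ^ 3 + 24139453 * t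
    ^ 4) * q1 x y z t +
    (3931375 * x ^ 4 - 640159 * x ^ 3 * y - 11788708 * x ^ 3 * z + 2764462 * x ^ 3 * t - 3736707
    * x ^ 2 * y ^ 2 + 2336342 * x ^ 2 * y * z - 3631402 * x ^ 2 * y * t + 12615295 * x ^ 2 * z ^
    2 - 3729420 * x ^ 2 * z * t - 3456841 * x ^ 2 * t ^ 2 + 14574741 * x * y ^ 3 - 2034446 * x *
    y ^ 2 * z + 16265991 * x * y ^ 2 * t - 929795 * x * y * z ^ 2 - 456705 * x * y * z * t +
    13693469 * x * y * t ^ 2 - 10877494 * x * z ^ 3 + 5887221 * x * z ^ 2 * t + 2064689 * x * z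
    * t ^ 2 + 1762771 * x * t ^ 3 - 2094053 * y ^ 4 - 8471288 * y ^ 3 * z - 794090 * y ^ 3 * t +
    2381153 * y ^ 2 * z ^ 2 - 9759791 * y ^ 2 * z * t - 1611304 * y ^ 2 * t ^ 2 + 1881432 * y *
    z ^ 3 - 1554833 * y * z ^ 2 * t - 5932458 * y * z * t ^ 2 - 2366000 * y * t ^ 3 + 1730627 *
    z ^ 4 - 3177203 * z ^ 3 * t - 7720488 * z ^ 2 * t ^ 2 + 12525093 * z * t ^ 3 + 24016835 * t
    ^ 4) * q2 x y z t +
    (345808 * x ^ 3 - 2409050 * x ^ 2 * y - 85392 * x ^ 2 * z + 1402906 * x ^ 2 * t - 1991440 * x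
    * y ^ 2 - 71032 * x * y * z - 3388772 * x * y * t - 5166145 * x * z * t - 2922453 * x * t ^
    2 + 2950836 * y ^ 3 + 1413381 * y ^ 2 * z - 1011922 * y ^ 2 * t + 3031872 * y * z ^ 2 +
    9256051 * y * z * t + 10679051 * y * t ^ 2 + 4850313 * z ^ 2 * t + 1569592 * z * t ^ 2 -
    2900886 * t ^ 3) * FF x y z t := by
  unfold q0 q1 q2 FF
  ring

end Pool.Agent.Q279.BM
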