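import Pool.Agent.Q279.BM.Data

/-!
# Elimination: a multiple of `x⁶` lies in the ideal of the quadrics and of the cubic form
-/

set_option autoImplicit false

namespace Pool.Agent.Q279.BM

theorem cert_x (x y z t : ℤ) : 6879232 * x ^ 6 =
    (3740819 * x ^ 4 + 1086700 * x ^ 3 * y + 1028397 * x ^ 3 * z + 545190 * x ^ 3 * t + 116785 *
    x ^ 2 * y ^ 2 + 114764 * x ^ 2 * y * z - 304613 * x ^ 2 * y * t - 3138413 * x ^ 2 * z ^ 2 +
    1884209 * x ^ 2 * z * t - 519486 * x ^ 2 * t ^ 2 - 358386 * x * y ^ 3 + 892209 * x * y ^ 2 *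
    z - 226538 * x * y ^ 2 * t - 2053324 * x * y * z ^ 2 + 308606 * x * y * z * t - 52495 * x *
    y * t ^ 2 - 2110016 * x * z ^ 3 - 1595207 * x * z ^ 2 * t + 784934 * x * z * t ^ 2 - 6914 *
    x * t ^ 3 + 37283 * y ^ 4 + 215197 * y ^ 3 * z + 255750 * y ^ 3 * t - 57894 * y ^ 2 * z ^ 2
    - 14185 * y ^ 2 * z * t - 325547 * y ^ 2 * t ^ 2 - 336902 * y * z ^ 3 + 462968 * y * z ^ 2 *
    t - 54803 * y * z * t ^ 2 - 12093 * y * t ^ 3 + 1028397 * z ^ 4 - 163111 * z ^ 3 * t +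
    216790 * z ^ 2 * t ^ 2 - 206924 * z * t ^ 3 - 17709 * t ^ 4) * q0 x y z t +
    (12339616 * x ^ 4 + 4733628 * x ^ 3 * y - 1855440 * x ^ 3 * z + 1894343 * x ^ 3 * t + 852112
    * x ^ 2 * y ^ 2 + 1195481 * x ^ 2 * y * z + 1130126 * x ^ 2 * y * t - 13705636 * x ^ 2 * z ^
    2 + 3032032 * x ^ 2 * z * t - 17919 * x ^ 2 * t ^ 2 + 598461 * x * y ^ 3 + 583136 * x * y ^
    2 * z + 854050 * x * y ^ 2 * t - 2523795 * x * y * z ^ 2 - 8071 * x * y * z * t + 729447 * x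
    * y * t ^ 2 - 8010124 * x * z ^ 3 - 2547793 * x * z ^ 2 * t + 1167105 * x * z * t ^ 2 +
    79424 * x * t ^ 3 - 9452 * y ^ 4 - 64006 * y ^ 3 * z + 536090 * y ^ 3 * t - 258982 * y ^ 2 *
    z ^ 2 - 730790 * y ^ 2 * z * t + 71832 * y ^ 2 * t ^ 2 - 511316 * y * z ^ 3 + 162767 * y * z
    ^ 2 * t - 249471 * y * z * t ^ 2 - 304481 * y * t ^ 3 + 345777 * z ^ 4 + 635092 * z ^ 3 * t
    - 1397870 * z ^ 2 * t ^ 2 + 773319 * z * t ^ 3 + 84918 * t ^ 4) * q1 x y z t +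
    (9695383 * x ^ 4 + 1657764 * x ^ 3 * y - 2933088 * x ^ 3 * z + 3608926 * x ^ 3 * t + 113631 *
    x ^ 2 * y ^ 2 + 1718479 * x ^ 2 * y * z + 46126 * x ^ 2 * y * t - 7479855 * x ^ 2 * z ^ 2 -
    271771 * x ^ 2 * z * t + 491246 * x ^ 2 * t ^ 2 - 202935 * x * y ^ 3 + 375556 * x * y ^ 2 *
    z - 106831 * x * y ^ 2 * t - 1798541 * x * y * z ^ 2 + 1050773 * x * y * z * t - 204542 * x
    * y * t ^ 2 - 4178569 * x * z ^ 3 - 2778116 * x * z ^ 2 * t + 516174 * x * z * t ^ 2 - 19977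
    * x * t ^ 3 - 52790 * y ^ 4 + 426363 * y ^ 3 * z + 701914 * y ^ 3 * t - 384210 * y ^ 2 * z ^
    2 - 407915 * y ^ 2 * z * t - 328720 * y ^ 2 * t ^ 2 - 541447 * y * z ^ 3 + 110966 * y * z ^
    2 * t + 548647 * y * z * t ^ 2 - 221948 * y * t ^ 3 + 2079465 * z ^ 4 - 843637 * z ^ 3 * t -
    187357 * z ^ 2 * t ^ 2 + 292766 * z * t ^ 3 - 61271 * t ^ 4) * q2 x y z t +
    (3138413 * x ^ 3 - 117498 * x ^ 2 * y - 1028397 * x ^ 2 * z - 309580 * x ^ 2 * t - 1562512 *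
    x * y ^ 2 + 943103 * x * y * z - 1116936 * x * y * t + 54353 * x * z * t - 491693 * x * t ^
    2 + 301447 * y ^ 3 + 414621 * y ^ 2 * z - 925332 * y ^ 2 * t + 614607 * y * z ^ 2 + 868428 *
    y * z * t + 222973 * y * t ^ 2 + 2124807 * z ^ 2 * t - 1195847 * z * t ^ 2 - 102627 * t ^ 3) * FF x y z t := by
  unfold q0 q1 q2 FF
  ring

end Pool.Agent.Q279.BM
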