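import Pool.Agent.Q279.BM.Data

/-!
# Elimination: a multiple of `y⁶` lies in the ideal of the quadrics and of the cubic form
-/

set_option autoImplicit false

namespace Pool.Agent.Q279.BM

theorem cert_y (x y z t : ℤ) : 6879232 * y ^ 6 =
    (1100303 * x ^ 4 + 319136 * x ^ 3 * y - 1756399 * x ^ 3 * z - 85937 * x ^ 3 * t + 146649 * x
    ^ 2 * y ^ 2 - 503403 * x ^ 2 * y * z + 1695020 * x ^ 2 * y * t + 1100303 * x ^ 2 * z ^ 2 -
    1194622 * x ^ 2 * z * t + 1008161 * x ^ 2 * t ^ 2 + 65144 * x * y ^ 3 + 1777446 * x * y ^ 2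
    * z + 4709320 * x * y ^ 2 * t - 3103866 * x * y * z ^ 2 - 3860979 * x * y * z * t + 1479856
    * x * y * t ^ 2 - 656096 * x * z ^ 3 + 1356872 * x * z ^ 2 * t - 1710237 * x * z * t ^ 2 -
    590615 * x * t ^ 3 + 10032335 * y ^ 4 - 3650313 * y ^ 3 * z + 9735920 * y ^ 3 * t - 2355118
    * y ^ 2 * z ^ 2 - 9640447 * y ^ 2 * z * t - 6498344 * y ^ 2 * t ^ 2 + 4980718 * y * z ^ 3 +
    9116510 * y * z ^ 2 * t + 5092539 * y * z * t ^ 2 - 2681259 * y * t ^ 3 - 1756399 * z ^ 4 -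
    6073305 * z ^ 3 * t - 4216256 * z ^ 2 * t ^ 2 + 5981654 * z * t ^ 3 - 2006927 * t ^ 4) * q0 x y z t +
    (-2050498 * x ^ 4 + 733306 * x ^ 3 * y - 3052198 * x ^ 3 * z + 2399068 * x ^ 3 * t - 2081881
    * x ^ 2 * y ^ 2 + 1560415 * x ^ 2 * y * z + 401783 * x ^ 2 * y * t - 1110545 * x ^ 2 * z ^ 2
    - 895987 * x ^ 2 * z * t + 1248739 * x ^ 2 * t ^ 2 + 6242421 * x * y ^ 3 - 1242902 * x * y ^
    2 * z + 13691796 * x * y ^ 2 * t - 2288714 * x * y * z ^ 2 - 8949513 * x * y * z * t +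
    5547154 * x * y * t ^ 2 - 3067510 * x * z ^ 3 + 5185352 * x * z ^ 2 * t - 5114044 * x * z *
    t ^ 2 + 3339169 * x * t ^ 3 + 23188772 * y ^ 4 - 14489488 * y ^ 3 * z + 14559362 * y ^ 3 * t
    + 5137521 * y ^ 2 * z ^ 2 - 16151968 * y ^ 2 * z * t - 17186770 * y ^ 2 * t ^ 2 + 6194505 *
    y * z ^ 3 + 14424322 * y * z ^ 2 * t + 18688303 * y * z * t ^ 2 + 633220 * y * t ^ 3 -
    2831785 * z ^ 4 - 6953854 * z ^ 3 * t - 15953219 * z ^ 2 * t ^ 2 + 12421937 * z * t ^ 3 -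
    2190273 * t ^ 4) * q1 x y z t +
    (-232752 * x ^ 4 + 2280498 * x ^ 3 * y - 2294786 * x ^ 3 * z + 741140 * x ^ 3 * t + 2090828 *
    x ^ 2 * y ^ 2 - 3798711 * x ^ 2 * y * z + 1505176 * x ^ 2 * y * t + 2317217 * x ^ 2 * z ^ 2
    - 2459818 * x ^ 2 * z * t + 1904179 * x ^ 2 * t ^ 2 + 4882553 * x * y ^ 3 - 3815747 * x * y
    ^ 2 * z + 6990560 * x * y ^ 2 * t + 2632190 * x * y * z ^ 2 - 5808270 * x * y * z * t +
    3483476 * x * y * t ^ 2 - 3794957 * x * z ^ 3 + 2810677 * x * z ^ 2 * t - 3368359 * x * z *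
    t ^ 2 + 1652265 * x * t ^ 3 + 21714542 * y ^ 4 - 12168554 * y ^ 3 * z + 22747697 * y ^ 3 * t
    + 3774874 * y ^ 2 * z ^ 2 - 19757079 * y ^ 2 * z * t - 8122937 * y ^ 2 * t ^ 2 + 3201946 * y
    * z ^ 3 + 15280942 * y * z ^ 2 * t + 8611789 * y * z * t ^ 2 - 897631 * y * t ^ 3 + 534273 *
    z ^ 4 - 9559789 * z ^ 3 * t - 8730214 * z ^ 2 * t ^ 2 + 8042943 * z * t ^ 3 - 1693844 * t ^
    4) * q2 x y z t +
    (-1100303 * x ^ 3 + 2395251 * x ^ 2 * y + 1756399 * x ^ 2 * z + 1772762 * x ^ 2 * t - 4526526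
    * x * y ^ 2 + 976821 * x * y * z - 850775 * x * y * t - 952985 * x * z * t + 9250 * x * t ^
    2 - 9576949 * y ^ 3 + 12045927 * y ^ 2 * z + 15113360 * y ^ 2 * t - 11065827 * y * z ^ 2 -
    11934591 * y * z * t - 681386 * y * t ^ 2 + 8628415 * z ^ 2 * t - 3310761 * z * t ^ 2 +
    183346 * t ^ 3) * FF x y z t := by
  unfold q0 q1 q2 FF
  ring

end Pool.Agent.Q279.BM
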