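import Pool.Agent.Q279.BM.Data

/-!
# Elimination: a multiple of `z⁶` lies in the ideal of the quadrics and of the cubic form
-/

set_option autoImplicit false

namespace Pool.Agent.Q279.BM

theorem cert_z (x y z t : ℤ) : 6879232 * z ^ 6 =
    (1063460 * x ^ 4 + 4205953 * x ^ 3 * y - 3146023 * x ^ 3 * z + 1067313 * x ^ 3 * t + 1389939
    * x ^ 2 * y ^ 2 - 3006463 * x ^ 2 * y * z + 2180238 * x ^ 2 * y * t + 7942692 * x ^ 2 * z ^
    2 - 2035095 * x ^ 2 * z * t + 2026799 * x ^ 2 * t ^ 2 + 1695643 * x * y ^ 3 - 2256809 * x *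
    y ^ 2 * z + 1140461 * x * y ^ 2 * t + 2767696 * x * y * z ^ 2 - 2667887 * x * y * z * t -
    1105178 * x * y * t ^ 2 - 8961795 * x * z ^ 3 + 2616986 * x * z ^ 2 * t - 960315 * x * z * t
    ^ 2 - 552240 * x * t ^ 3 + 4501355 * y ^ 4 - 3923767 * y ^ 3 * z - 457891 * y ^ 3 * t +
    3726904 * y ^ 2 * z ^ 2 + 362744 * y ^ 2 * z * t - 46624 * y ^ 2 * t ^ 2 - 846118 * y * z ^
    3 + 1010756 * y * z ^ 2 * t + 3769612 * y * z * t ^ 2 + 1569714 * y * t ^ 3 + 3733209 * z ^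
    4 + 1732580 * z ^ 3 * t - 1814407 * z ^ 2 * t ^ 2 + 1645451 * z * t ^ 3 - 3306275 * t ^ 4) * q0 x y z t +
    (3294723 * x ^ 4 - 333738 * x ^ 3 * y + 15934734 * x ^ 3 * z + 1724224 * x ^ 3 * t - 5202044
    * x ^ 2 * y ^ 2 + 5772878 * x ^ 2 * y * z - 2209663 * x ^ 2 * y * t - 74137 * x ^ 2 * z ^ 2
    - 54354 * x ^ 2 * z * t - 2134023 * x ^ 2 * t ^ 2 - 2107876 * x * y ^ 3 + 3435260 * x * y ^
    2 * z - 2841801 * x * y ^ 2 * t - 1524750 * x * y * z ^ 2 + 676250 * x * y * z * t - 2686220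
    * x * y * t ^ 2 - 11677879 * x * z ^ 3 + 5106326 * x * z ^ 2 * t - 1597997 * x * z * t ^ 2 +
    143694 * x * t ^ 3 + 5402921 * y ^ 4 - 3097163 * y ^ 3 * z - 2905097 * y ^ 3 * t + 2248160 *
    y ^ 2 * z ^ 2 + 3963732 * y ^ 2 * z * t - 3611251 * y ^ 2 * t ^ 2 - 2477989 * y * z ^ 3 +
    211153 * y * z ^ 2 * t + 5096766 * y * z * t ^ 2 + 1877805 * y * t ^ 3 + 11293838 * z ^ 4 -
    6784895 * z ^ 3 * t + 3075165 * z ^ 2 * t ^ 2 - 1210594 * z * t ^ 3 - 3729888 * t ^ 4) * q1 x y z t +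
    (2640969 * x ^ 4 + 2271211 * x ^ 3 * y + 6028540 * x ^ 3 * z + 2451065 * x ^ 3 * t - 279283 *
    x ^ 2 * y ^ 2 - 569024 * x ^ 2 * y * z - 1874632 * x ^ 2 * y * t - 1721464 * x ^ 2 * z ^ 2 +
    3580139 * x ^ 2 * z * t - 358773 * x ^ 2 * t ^ 2 + 1868050 * x * y ^ 3 + 18135 * x * y ^ 2 *
    z + 1089700 * x * y ^ 2 * t + 2012941 * x * y * z ^ 2 + 1057328 * x * y * z * t - 1227473 *
    x * y * t ^ 2 - 5341514 * x * z ^ 3 - 2976248 * x * z ^ 2 * t + 1339708 * x * z * t ^ 2 -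
    1788728 * x * t ^ 3 + 8275503 * y ^ 4 - 6870616 * y ^ 3 * z - 27928 * y ^ 3 * t + 5776602 *
    y ^ 2 * z ^ 2 - 103625 * y ^ 2 * z * t + 5211 * y ^ 2 * t ^ 2 - 2901675 * y * z ^ 3 +
    2318315 * y * z ^ 2 * t + 3657087 * y * z * t ^ 2 + 4323591 * y * t ^ 3 + 3903198 * z ^ 4 +
    4178259 * z ^ 3 * t - 1749672 * z ^ 2 * t ^ 2 + 1108358 * z * t ^ 3 - 3860566 * t ^ 4) * q2 x y z t +
    (-1063460 * x ^ 3 - 82409 * x ^ 2 * y + 3146023 * x ^ 2 * z - 937017 * x ^ 2 * t + 4188014 *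
    x * y ^ 2 - 5127606 * x * y * z + 2009939 * x * y * t - 6879232 * x * z ^ 2 - 2519271 * x *
    z * t + 686112 * x * t ^ 2 + 552848 * y ^ 3 - 2053233 * y ^ 2 * z + 4620005 * y ^ 2 * t +
    3129031 * y * z ^ 2 - 1654209 * y * z * t + 1889602 * y * t ^ 2 + 6879232 * z ^ 3 - 3223242
    * z ^ 2 * t + 4923060 * z * t ^ 2 + 423613 * t ^ 3) * FF x y z t := by
  unfold q0 q1 q2 FF
  ring

end Pool.Agent.Q279.BM
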