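import Pool.Agent.Q279.BM.Norm

/-!
# If `X³ - X - 1` splits modulo `p` then `p = u² + u v + 6 v²`
-/

set_option autoImplicit false

namespace Pool.Agent.Q279.BM

open Polynomial NumberField Ideal Module IntermediateField

theorem root_of {F : Type*} [Field F] {r a : F} (hr : r ^ 3 = r + 1)
    (ha : a ^ 2 - (1 - r) * a + 1 = 0) : Rt a := by
  unfold Rt
  linear_combination ((2) + (-1) * r ^ 2 + (-1) * r ^ 3 + (1) * r ^ 4 + (-1) * a +
    (-1) * a * r ^ 3 + (2) * a ^ 2 + (1) * a ^ 2 * r + (1) * a ^ 2 * r ^ 2 + (-2) * a ^ 3 +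
    (-1) * a ^ 3 * r + (1) * a ^ 4) * ha + ((1) + (-1) * r + (2) * a * r + (-1) * a * r ^ 2) * hr

theorem exists_root {F : Type*} [Field F] (h2 : (2 : F) ≠ 0) (h23 : (23 : F) ≠ 0) {r d : F}
    (hr : r ^ 3 = r + 1) (hd : d ^ 2 = -23) : ∃ a : F, Rt a := by
  refine ⟨(1 - r - (2 * r ^ 2 - 3 * r - 9) * d / 23) / 2, root_of hr ?_⟩
  have h4 : (2 * r ^ 2 - 3 * r - 9) ^ 2 = -23 * ((1 - r) ^ 2 - 4) := by
    linear_combination (4 * r - 12) * hr
  have h5 : ((2 * r ^ 2 - 3 * r - 9) * d / 23) ^ 2 = (1 - r) ^ 2 - 4 := by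
    rw [div_pow, mul_pow, h4, hd]
    field_simp
  have h6 : ∀ e : F, e ^ 2 = (1 - r) ^ 2 - 4 →
      ((1 - r - e) / 2) ^ 2 - (1 - r) * ((1 - r - e) / 2) + 1 = 0 := by
    intro e he
    field_simp
    linear_combination he
  exact h6 _ h5

theorem exists_field : ∃ x : AlgebraicClosure ℚ, Rt x := by
  obtain ⟨x, hx⟩ := IsAlgClosed.exists_aeval_eq_zero (AlgebraicClosure ℚ) (gg ℚ) (by
    rw [degree_eq_natDegree (gg_monic ℚ).ne_zero, gg_natDegree]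
    norm_num)
  rw [gg_aeval] at hx
  exact ⟨x, hx⟩

theorem cft {p : ℕ} [Fact p.Prime] (h2 : p ≠ 2) (h23 : p ≠ 23) {r d : ZMod p}
    (hr : r ^ 3 = r + 1) (hd : d ^ 2 = -23) : ∃ u v : ℤ, (p : ℤ) = u ^ 2 + u * v + 6 * v ^ 2 := by
  have k2 : (2 : ZMod p) ≠ 0 := by
    intro h
    have : ((2 : ℕ) : ZMod p) = 0 := by exact_mod_cast h
    rw [ZMod.natCast_eq_zero_iff] at this
    exact h2 ((Nat.prime_dvd_prime_iff_eq Fact.out (by norm_num)).1 this)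
  have k23 : (23 : ZMod p) ≠ 0 := by
    intro h
    have : ((23 : ℕ) : ZMod p) = 0 := by exact_mod_cast h
    rw [ZMod.natCast_eq_zero_iff] at this
    exact h23 ((Nat.prime_dvd_prime_iff_eq Fact.out (by norm_num)).1 this)
  obtain ⟨c, hc⟩ := exists_root k2 k23 hr hd
  obtain ⟨x, hx⟩ := exists_field
  have hxi : IsIntegral ℚ x := by
    refine ⟨gg ℚ, gg_monic ℚ, ?_⟩
    have : aeval x (gg ℚ) = 0 := by
      rw [gg_aeval]
      exact hx
    exact this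
  have : FiniteDimensional ℚ ℚ⟮x⟯ := adjoin.finiteDimensional hxi
  have : NumberField ℚ⟮x⟯ := ⟨⟩
  have hg : Rt (AdjoinSimple.gen ℚ x) := by
    unfold Rt at hx ⊢
    apply (algebraMap ℚ⟮x⟯ (AlgebraicClosure ℚ)).injective
    have h := AdjoinSimple.algebraMap_gen ℚ x
    simp only [map_add, map_sub, map_mul, map_pow, map_ofNat, map_one, map_zero, h]
    exact hx
  have hint : IsIntegral ℤ (AdjoinSimple.gen ℚ x) := by
    refine ⟨gg ℤ, gg_monic ℤ, ?_⟩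
    have : aeval (AdjoinSimple.gen ℚ x) (gg ℤ) = 0 := by
      rw [gg_aeval]
      exact hg
    exact this
  let a : 𝓞 ℚ⟮x⟯ := ⟨AdjoinSimple.gen ℚ x, hint⟩
  have ha : Rt (a : ℚ⟮x⟯) := hg
  have ht : Algebra.adjoin ℚ {(a : ℚ⟮x⟯)} = ⊤ := by
    have := (adjoin.powerBasis hxi).adjoin_gen_eq_top
    rw [adjoin.powerBasis_gen] at this
    exact this
  obtain ⟨y, hy⟩ := exists_elem ha ht h23 hc
  obtain ⟨u, v, huv⟩ := norm_eq_form (sq_sq ha) y
  refine ⟨u, v, ?_⟩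
  rw [huv] at hy
  have h0 : 0 ≤ u ^ 2 + u * v + 6 * v ^ 2 := by nlinarith [sq_nonneg (2 * u + v), sq_nonneg v]
  omega

end Pool.Agent.Q279.BM
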