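import Pool.Agent.Q279.BM.Desc

/-!
# The quadrics and cubics for the surface
-/

set_option autoImplicit false

namespace Pool.Agent.Q279.BM

/-- the cubic form -/
def FF (x y z t : ℤ) : ℤ :=
  x ^ 3 + 2 * x ^ 2 * y + y ^ 3 + y ^ 2 * z + x * z ^ 2 + z ^ 3 + t ^ 2 * x - t ^ 2 * y -
    t ^ 2 * z + t * y * z + t ^ 3

/-- coordinate of the quadric over `ℤ[θ]` -/
def q0 {R : Type*} [CommRing R] (x y z t : R) : R :=
  x ^ 2 - 5 * x * y + 3 * x * t - 5 * y ^ 2 - 7 * y * z + 4 * y * t + 4 * z * t - t ^ 2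

/-- coordinate of the quadric over `ℤ[θ]` -/
def q1 {R : Type*} [CommRing R] (x y z t : R) : R :=
  -3 * x * y + 3 * x * t + y ^ 2 + y * z - y * t + t ^ 2

/-- coordinate of the quadric over `ℤ[θ]` -/
def q2 {R : Type*} [CommRing R] (x y z t : R) : R :=
  5 * x * y - 5 * x * t + 2 * y ^ 2 + 3 * y * z - 2 * y * t - 3 * z * t

/-- coordinate of the cubic over `ℤ[(1 + √-23)/2]` -/
def cA {R : Type*} [CommRing R] (x y z t : R) : R :=
  3 * x ^ 2 * y - 8 * x ^ 2 * z - 4 * x ^ 2 * t - 12 * x * y ^ 2 - 15 * x * y * z + 5 * x * y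
    * t + 20 * x * z ^ 2 - x * z * t + x * t ^ 2 + 6 * y ^ 3 + 3 * y ^ 2 * z + 6 * y ^ 2 * t + 3
    * y * z ^ 2 + 17 * y * z * t - 17 * y * t ^ 2 + 17 * z ^ 3 - 17 * z * t ^ 2 + 11 * t ^ 3

/-- coordinate of the cubic over `ℤ[(1 + √-23)/2]` -/
def cB {R : Type*} [CommRing R] (x y z t : R) : R :=
  -7 * x ^ 2 * z + x ^ 2 * t - 6 * x * y * z - 2 * x * y * t - 8 * x * z ^ 2 - 2 * x * z * t +
    2 * x * t ^ 2 - 3 * y ^ 2 * z - 6 * y * z ^ 2 + y * z * t - y * t ^ 2 - 2 * z ^ 3 - z * t ^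
    2 + t ^ 3

/-- the norm form of `ℤ[θ]`, `θ³ = θ + 1` -/
def nc {R : Type*} [CommRing R] (a b c : R) : R :=
  a * ((a + c) ^ 2 - b * (b + c)) - b * (c * (a + c) - b ^ 2) + c * (c * (b + c) - b * (a + c))

theorem norm_identity (x y z t : ℤ) :
    nf (cA x y z t) (cB x y z t) = 3 * nc (q0 x y z t) (q1 x y z t) (q2 x y z t) +
      FF x y z t * (-3 * x ^ 3 + 21 * x ^ 2 * y + 3 * x ^ 2 * t - 108 * x * y ^ 2 - 24 * x * y * z + 105 * x * y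
    * t + 417 * x * z ^ 2 - 18 * x * z * t - 54 * x * t ^ 2 + 51 * y ^ 3 + 45 * y ^ 2 * z + 123
    * y ^ 2 * t + 138 * y * z ^ 2 + 258 * y * z * t - 258 * y * t ^ 2 + 279 * z ^ 3 - 258 * z *
    t ^ 2 + 135 * t ^ 3) := by
  unfold nf cA cB nc q0 q1 q2 FF
  ring

end Pool.Agent.Q279.BM
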