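import Pool.Agent.Q279.BM.Cft

/-!
# Descent for values of `A² + A B + 6 B²`
-/

set_option autoImplicit false

namespace Pool.Agent.Q279.BM

/-- the norm form of `ℤ[(1 + √-23)/2]` -/
def nf (A B : ℤ) : ℤ := A ^ 2 + A * B + 6 * B ^ 2

theorem nf_nonneg (A B : ℤ) : 0 ≤ nf A B := by
  unfold nf
  nlinarith [sq_nonneg (2 * A + B), sq_nonneg B]

theorem div_split {p : ℕ} (hp : p.Prime) {u v A B : ℤ} (huv : (p : ℤ) = u ^ 2 + u * v + 6 * v ^ 2)
    (h : (p : ℤ) ∣ nf A B) : ∃ A' B' : ℤ, nf A B = p * nf A' B' ∧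
      (2 ∣ A' → 2 ∣ B' → 2 ∣ A ∧ 2 ∣ B) := by
  have hpi : Prime (p : ℤ) := Nat.prime_iff_prime_int.1 hp
  have hp0 : (p : ℤ) ≠ 0 := hpi.ne_zero
  have key : (B * u - A * v) * (A * v + B * u + B * v) = p * B ^ 2 - v ^ 2 * nf A B := by
    rw [huv]
    unfold nf
    ring
  have h1 : (p : ℤ) ∣ (B * u - A * v) * (A * v + B * u + B * v) := by
    rw [key]
    exact dvd_sub (Dvd.intro _ rfl) (dvd_mul_of_dvd_right h _)
  rcases hpi.dvd_or_dvd h1 with h2 | h2
  · have h3 : nf (A * u + A * v + 6 * B * v) (B * u - A * v) = p * nf A B := by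
      rw [huv]
      unfold nf
      ring
    have h4 : (p : ℤ) ∣ A * u + A * v + 6 * B * v := by
      apply hpi.dvd_of_dvd_pow (n := 2)
      have : (A * u + A * v + 6 * B * v) ^ 2 = p * nf A B -
          (B * u - A * v) * ((A * u + A * v + 6 * B * v) + 6 * (B * u - A * v)) := by
        rw [← h3]
        unfold nf
        ring
      rw [this]
      exact dvd_sub (Dvd.intro _ rfl) (dvd_mul_of_dvd_left h2 _)
    obtain ⟨B', hB⟩ := h2
    obtain ⟨A', hA⟩ := h4
    have hA2 : A = A' * u - 6 * B' * v := by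
      apply mul_left_cancel₀ hp0
      have : (p : ℤ) * (A' * u - 6 * B' * v) = (p * A') * u - 6 * (p * B') * v := by ring
      rw [this, ← hA, ← hB, huv]
      ring
    have hB2 : B = A' * v + B' * u + B' * v := by
      apply mul_left_cancel₀ hp0
      have : (p : ℤ) * (A' * v + B' * u + B' * v) = (p * A') * v + (p * B') * u + (p * B') * v := by
        ring
      rw [this, ← hA, ← hB, huv]
      ring
    refine ⟨A', B', ?_, ?_⟩
    · rw [hA2, hB2, huv]
      unfold nf
      ring
    · rintro ⟨a, ha⟩ ⟨b, hb⟩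
      rw [hA2, hB2, ha, hb]
      exact ⟨⟨a * u - 6 * b * v, by ring⟩, ⟨a * v + b * u + b * v, by ring⟩⟩
  · have h3 : nf (A * u - 6 * B * v) (A * v + B * u + B * v) = p * nf A B := by
      rw [huv]
      unfold nf
      ring
    have h4 : (p : ℤ) ∣ A * u - 6 * B * v := by
      apply hpi.dvd_of_dvd_pow (n := 2)
      have : (A * u - 6 * B * v) ^ 2 = p * nf A B -
          (A * v + B * u + B * v) * ((A * u - 6 * B * v) + 6 * (A * v + B * u + B * v)) := by
        rw [← h3]
        unfold nf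
        ring
      rw [this]
      exact dvd_sub (Dvd.intro _ rfl) (dvd_mul_of_dvd_left h2 _)
    obtain ⟨B', hB⟩ := h2
    obtain ⟨A', hA⟩ := h4
    have hA2 : A = A' * (u + v) + 6 * B' * v := by
      apply mul_left_cancel₀ hp0
      have : (p : ℤ) * (A' * (u + v) + 6 * B' * v) = (p * A') * (u + v) + 6 * (p * B') * v := by
        ring
      rw [this, ← hA, ← hB, huv]
      ring
    have hB2 : B = B' * u - A' * v := by
      apply mul_left_cancel₀ hp0
      have : (p : ℤ) * (B' * u - A' * v) = (p * B') * u - (p * A') * v := by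
        ring
      rw [this, ← hA, ← hB, huv]
      ring
    refine ⟨A', B', ?_, ?_⟩
    · rw [hA2, hB2, huv]
      unfold nf
      ring
    · rintro ⟨a, ha⟩ ⟨b, hb⟩
      rw [hA2, hB2, ha, hb]
      exact ⟨⟨a * (u + v) + 6 * b * v, by ring⟩, ⟨b * u - a * v, by ring⟩⟩

theorem div_23 {A B : ℤ} (h : (23 : ℤ) ∣ nf A B) : ∃ A' B' : ℤ, nf A B = 23 * nf A' B' ∧
      (2 ∣ A' → 2 ∣ B' → 2 ∣ A ∧ 2 ∣ B) := by
  have hp : Prime (23 : ℤ) := Int.prime_iff_natAbs_prime.2 (by norm_num)
  have h1 : (23 : ℤ) ∣ (2 * A + B) ^ 2 := by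
    have : (2 * A + B) ^ 2 = 4 * nf A B - 23 * B ^ 2 := by
      unfold nf
      ring
    rw [this]
    exact dvd_sub (dvd_mul_of_dvd_right h _) (Dvd.intro _ rfl)
  obtain ⟨k, hk⟩ := hp.dvd_of_dvd_pow h1
  have hB : B = 23 * k - 2 * A := by linarith
  refine ⟨12 * k - A, -k, ?_, ?_⟩
  · rw [hB]
    unfold nf
    ring
  · rintro h2 h3
    rw [hB]
    constructor <;> omega

theorem div_8 {A B : ℤ} (hodd : ¬(2 ∣ A ∧ 2 ∣ B)) (h : (8 : ℤ) ∣ nf A B) :
    ∃ A' B' : ℤ, nf A B = 8 * nf A' B' ∧ (2 ∣ A' → 2 ∣ B' → 2 ∣ A ∧ 2 ∣ B) := by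
  have h1 : (8 : ℤ) ∣ (A - B) * (A + 2 * B) := by
    have : (A - B) * (A + 2 * B) = nf A B - 8 * B ^ 2 := by
      unfold nf
      ring
    rw [this]
    exact dvd_sub h (Dvd.intro _ rfl)
  have h2 : (8 : ℤ) ∣ A - B ∨ (8 : ℤ) ∣ A + 2 * B := by
    by_cases h3 : (2 : ℤ) ∣ A - B
    · left
      have h4 : IsCoprime (8 : ℤ) (A + 2 * B) := by
        have : IsCoprime (2 : ℤ) (A + 2 * B) := by
          rw [Int.isCoprime_iff_gcd_eq_one, ← Int.natAbs_one]
          have h5 : ¬ (2 : ℤ) ∣ A + 2 * B := by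
            intro h6
            apply hodd
            omega
          have := (Int.prime_two.coprime_iff_not_dvd).2 h5
          rw [Int.isCoprime_iff_gcd_eq_one] at this
          rw [this]
          rfl
        have h6 : IsCoprime ((2 : ℤ) ^ 3) (A + 2 * B) := this.pow_left
        norm_num at h6
        exact h6
      exact h4.dvd_of_dvd_mul_right h1
    · right
      have h4 : IsCoprime (8 : ℤ) (A - B) := by
        have := (Int.prime_two.coprime_iff_not_dvd).2 h3
        have h6 : IsCoprime ((2 : ℤ) ^ 3) (A - B) := this.pow_left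
        norm_num at h6
        exact h6
      exact h4.dvd_of_dvd_mul_left h1
  rcases h2 with ⟨k, hk⟩ | ⟨k, hk⟩
  · -- B = A - 8 k
    have hB : A = B + 8 * k := by linarith
    refine ⟨B + 2 * k, -k, ?_, ?_⟩
    · rw [hB]
      unfold nf
      ring
    · intro h3 h4
      rw [hB]
      constructor <;> omega
  · have hA : A = 8 * k - 2 * B := by linarith
    refine ⟨k - B, k, ?_, ?_⟩
    · rw [hA]
      unfold nf
      ring
    · intro h3 h4
      rw [hA]
      constructor <;> omega

theorem nf_ne_three (A B : ℤ) : nf A B ≠ 3 := by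
  intro h
  unfold nf at h
  have hB : B ^ 2 < 1 := by nlinarith [sq_nonneg (2 * A + B)]
  have hB0 : B = 0 := by
    by_contra hne
    have : 1 ≤ B ^ 2 := by
      have := sq_pos_of_ne_zero hne
      omega
    omega
  rw [hB0] at h
  have h1 : A ^ 2 = 3 := by linarith
  have h2 : A < 2 := by nlinarith
  have h3 : -2 < A := by nlinarith
  interval_cases A <;> omega

theorem base_case : ∀ (k : ℕ) (A B : ℤ), nf A B = 3 * 8 ^ k → ¬(2 ∣ A ∧ 2 ∣ B) → False := by
  intro k
  induction k with
  | zero =>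
    intro A B h _
    exact nf_ne_three A B (by simpa using h)
  | succ k ih =>
    intro A B h hodd
    have h8 : (8 : ℤ) ∣ nf A B := by
      rw [h]
      exact ⟨3 * 8 ^ k, by ring⟩
    obtain ⟨A', B', h1, h2⟩ := div_8 hodd h8
    apply ih A' B'
    · rw [h] at h1
      have : (8 : ℤ) * (3 * 8 ^ k) = 8 * nf A' B' := by
        rw [← h1]
        ring
      linarith
    · rintro ⟨h3, h4⟩
      exact hodd (h2 h3 h4)

theorem descent : ∀ (m : ℕ), m ≠ 0 →
    (∀ p : ℕ, p.Prime → p ∣ m → 5 ≤ p ∧ ∃ r : ZMod p, r ^ 3 = r + 1) →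
    ∀ (k : ℕ) (A B : ℤ), nf A B = 3 * 8 ^ k * m → ¬(2 ∣ A ∧ 2 ∣ B) → False := by
  intro m
  induction m using Nat.strong_induction_on with
  | _ m ih =>
    intro hm0 hprime k A B h hodd
    by_cases hm1 : m = 1
    · rw [hm1] at h
      exact base_case k A B (by simpa using h) hodd
    have hp : (m.minFac).Prime := Nat.minFac_prime hm1
    obtain ⟨p, hpd⟩ : ∃ p, p = m.minFac := ⟨_, rfl⟩
    rw [← hpd] at hp
    have hpm : p ∣ m := by
      rw [hpd]
      exact Nat.minFac_dvd m
    obtain ⟨hp5, r, hr⟩ := hprime p hp hpm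
    have hfact : Fact p.Prime := ⟨hp⟩
    have hpi : Prime (p : ℤ) := Nat.prime_iff_prime_int.1 hp
    have hp0 : (p : ℤ) ≠ 0 := hpi.ne_zero
    obtain ⟨m1, hm⟩ := hpm
    have hm10 : m1 ≠ 0 := by
      rintro rfl
      exact hm0 (by simpa using hm)
    have hm1lt : m1 < m := by
      rw [hm]
      nlinarith [Nat.pos_of_ne_zero hm10]
    have hpnf : (p : ℤ) ∣ nf A B := by
      rw [h, hm]
      push_cast
      exact ⟨3 * 8 ^ k * m1, by ring⟩
    have hprime1 : ∀ q : ℕ, q.Prime → q ∣ m1 → 5 ≤ q ∧ ∃ r : ZMod q, r ^ 3 = r + 1 := by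
      intro q hq hqm
      exact hprime q hq (by rw [hm]; exact dvd_mul_of_dvd_right hqm _)
    by_cases hB : (p : ℤ) ∣ B
    · have hA : (p : ℤ) ∣ A := by
        apply hpi.dvd_of_dvd_pow (n := 2)
        have : A ^ 2 = nf A B - B * (A + 6 * B) := by
          unfold nf
          ring
        rw [this]
        exact dvd_sub hpnf (dvd_mul_of_dvd_left hB _)
      obtain ⟨A', hA'⟩ := hA
      obtain ⟨B', hB'⟩ := hB
      have h1 : nf A B = p * (p * nf A' B') := by
        rw [hA', hB']
        unfold nf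
        ring
      have h2 : (p : ℤ) * nf A' B' = 3 * 8 ^ k * m1 := by
        apply mul_left_cancel₀ hp0
        rw [← h1, h, hm]
        push_cast
        ring
      have h3 : (p : ℤ) ∣ 3 * 8 ^ k * m1 := ⟨_, h2.symm⟩
      have h4 : p ∣ m1 := by
        have h5 : p ∣ 3 * 8 ^ k * m1 := by exact_mod_cast h3
        rcases (Nat.Prime.dvd_mul hp).1 h5 with h6 | h6
        · exfalso
          rcases (Nat.Prime.dvd_mul hp).1 h6 with h7 | h7
          · have := Nat.le_of_dvd (by norm_num) h7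
            omega
          · have h8 := hp.dvd_of_dvd_pow h7
            have h9 : p ∣ 2 ^ 3 := by simpa using h8
            have h10 := Nat.le_of_dvd (by norm_num) (hp.dvd_of_dvd_pow h9)
            omega
        · exact h6
      obtain ⟨m2, hm2⟩ := h4
      have hm20 : m2 ≠ 0 := by
        rintro rfl
        exact hm10 (by simpa using hm2)
      have hm2lt : m2 < m := by
        refine lt_of_le_of_lt ?_ hm1lt
        rw [hm2]
        nlinarith [hp.pos]
      refine ih m2 hm2lt hm20 ?_ k A' B' ?_ ?_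
      · intro q hq hqm
        exact hprime1 q hq (by rw [hm2]; exact dvd_mul_of_dvd_right hqm _)
      · apply mul_left_cancel₀ hp0
        rw [h2, hm2]
        push_cast
        ring
      · rintro ⟨⟨a, ha⟩, ⟨b, hb⟩⟩
        apply hodd
        rw [hA', hB', ha, hb]
        exact ⟨⟨p * a, by ring⟩, ⟨p * b, by ring⟩⟩
    · by_cases h23 : p = 23
      · have h23d : (23 : ℤ) ∣ nf A B := by
          rw [h23] at hpnf
          exact_mod_cast hpnf
        obtain ⟨A', B', h1, h2⟩ := div_23 h23d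
        refine ih m1 hm1lt hm10 hprime1 k A' B' ?_ ?_
        · apply mul_left_cancel₀ (by norm_num : (23 : ℤ) ≠ 0)
          rw [← h1, h, hm, h23]
          push_cast
          ring
        · rintro ⟨h3, h4⟩
          exact hodd (h2 h3 h4)
      · have hBz : ((B : ℤ) : ZMod p) ≠ 0 := by
          rw [Ne, ZMod.intCast_zmod_eq_zero_iff_dvd]
          exact hB
        have hnz : ((nf A B : ℤ) : ZMod p) = 0 := by
          rw [ZMod.intCast_zmod_eq_zero_iff_dvd]
          exact hpnf
        have hd : (((2 * A + B : ℤ) : ZMod p) / (B : ZMod p)) ^ 2 = -23 := by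
          rw [div_pow, div_eq_iff (pow_ne_zero 2 hBz)]
          have : ((2 * A + B : ℤ) : ZMod p) ^ 2 = 4 * ((nf A B : ℤ) : ZMod p) -
              23 * (B : ZMod p) ^ 2 := by
            unfold nf
            push_cast
            ring
          rw [this, hnz]
          ring
        obtain ⟨u, v, huv⟩ := cft (by omega) h23 hr hd
        obtain ⟨A', B', h1, h2⟩ := div_split hp huv hpnf
        refine ih m1 hm1lt hm10 hprime1 k A' B' ?_ ?_
        · apply mul_left_cancel₀ hp0
          rw [← h1, h, hm]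
          push_cast
          ring
        · rintro ⟨h3, h4⟩
          exact hodd (h2 h3 h4)

end Pool.Agent.Q279.BM
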