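import Mathlib

/-!
# The Hilbert class field of `ℚ(√-23)`

A number field generated by a root `α` of `X⁶ - 3X⁵ + 5X⁴ - 5X³ + 5X² - 3X + 1` contains
`θ` with `θ³ = θ + 1` and `s` with `s² = -23`.  Its ring of integers is a principal ideal domain.
-/

set_option autoImplicit false

namespace Pool.Agent.Q279.BM

open Polynomial NumberField Ideal Module

/-- `α` is a root of the sextic. -/
def Rt {R : Type*} [CommRing R] (α : R) : Prop :=
  α ^ 6 - 3 * α ^ 5 + 5 * α ^ 4 - 5 * α ^ 3 + 5 * α ^ 2 - 3 * α + 1 = 0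

/-- the element `θ` -/
def tht {R : Type*} [CommRing R] (α : R) : R :=
  α ^ 5 - 3 * α ^ 4 + 5 * α ^ 3 - 5 * α ^ 2 + 4 * α - 2

/-- the element `s = √-23` -/
def sq {R : Type*} [CommRing R] (α : R) : R :=
  4 * α ^ 5 - 10 * α ^ 4 + 16 * α ^ 3 - 14 * α ^ 2 + 18 * α - 7

theorem tht_cube {R : Type*} [CommRing R] {α : R} (h : Rt α) : tht α ^ 3 = tht α + 1 := by
  unfold Rt at h
  unfold tht
  linear_combination ((-7) + (23) * α ^ 1 + (-47) * α ^ 2 + (68) * α ^ 3 + (-74) * α ^ 4 +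
    (62) * α ^ 5 + (-40) * α ^ 6 + (19) * α ^ 7 + (-6) * α ^ 8 + (1) * α ^ 9) * h

theorem sq_sq {R : Type*} [CommRing R] {α : R} (h : Rt α) : sq α ^ 2 = -23 := by
  unfold Rt at h
  unfold sq
  linear_combination ((72) + (-36) * α ^ 1 + (52) * α ^ 2 + (-32) * α ^ 3 + (16) * α ^ 4) * h

theorem unit_eq {R : Type*} [CommRing R] {α : R} (h : Rt α) :
    (α ^ 4 - 2 * α ^ 3 + 3 * α ^ 2 - 2 * α + 1) * (2 * α ^ 4 - 4 * α ^ 3 + 5 * α ^ 2 - 3 * α + 4)
      = 1 := by
  unfold Rt at h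
  linear_combination ((3) + (-2) * α ^ 1 + (2) * α ^ 2) * h

theorem deriv_eq {R : Type*} [CommRing R] {α : R} (h : Rt α) :
    6 * α ^ 5 - 15 * α ^ 4 + 20 * α ^ 3 - 15 * α ^ 2 + 10 * α - 3 =
      (α ^ 4 - 2 * α ^ 3 + 3 * α ^ 2 - 2 * α + 1) * sq α := by
  unfold Rt at h
  unfold sq
  linear_combination -((-4) + (10) * α ^ 1 + (-6) * α ^ 2 + (4) * α ^ 3) * h

/-- the sextic -/
noncomputable def gg (R : Type*) [CommRing R] : R[X] :=
  X ^ 6 - 3 * X ^ 5 + 5 * X ^ 4 - 5 * X ^ 3 + 5 * X ^ 2 - 3 * X + 1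

theorem gg_monic (R : Type*) [CommRing R] [Nontrivial R] : (gg R).Monic := by
  unfold gg
  monicity!

theorem gg_natDegree (R : Type*) [CommRing R] [Nontrivial R] : (gg R).natDegree = 6 := by
  unfold gg
  compute_degree!

theorem gg_map {R S : Type*} [CommRing R] [CommRing S] (f : R →+* S) :
    (gg R).map f = gg S := by
  simp [gg]

theorem gg_aeval {R S : Type*} [CommRing R] [CommRing S] [Algebra R S] (x : S) :
    aeval x (gg R) = x ^ 6 - 3 * x ^ 5 + 5 * x ^ 4 - 5 * x ^ 3 + 5 * x ^ 2 - 3 * x + 1 := by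
  simp [gg, map_ofNat]

theorem gg_deriv_aeval {R S : Type*} [CommRing R] [CommRing S] [Algebra R S] (x : S) :
    aeval x (derivative (gg R)) =
      6 * x ^ 5 - 15 * x ^ 4 + 20 * x ^ 3 - 15 * x ^ 2 + 10 * x - 3 := by
  simp [gg, map_ofNat]
  ring

section degree

variable {H : Type*} [Field H] [NumberField H]

theorem three_dvd {t : H} (ht : t ^ 3 = t + 1) : 3 ∣ finrank ℚ H := by
  have hm : minpoly ℚ t = X ^ 3 - X - 1 := by
    symm
    apply minpoly.eq_of_irreducible_of_monic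
    · exact X_pow_sub_X_sub_one_irreducible_rat (by norm_num)
    · simp [ht]
    · monicity!
  have h1 : (minpoly ℚ t).natDegree ∣ finrank ℚ H :=
    minpoly.degree_dvd (Algebra.IsIntegral.isIntegral t)
  have h2 : (X ^ 3 - X - 1 : ℚ[X]).natDegree = 3 := by compute_degree!
  rwa [hm, h2] at h1

theorem no_rat (q : ℚ) : q ^ 2 ≠ -23 := by
  intro h
  nlinarith [sq_nonneg q]

theorem two_dvd {s : H} (hs : s ^ 2 = -23) : 2 ∣ finrank ℚ H := by
  have h1 : (minpoly ℚ s).natDegree ∣ finrank ℚ H :=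
    minpoly.degree_dvd (Algebra.IsIntegral.isIntegral s)
  have h2 : minpoly ℚ s ∣ (X ^ 2 + 23 : ℚ[X]) := by
    apply minpoly.dvd
    simp [hs, map_ofNat]
  have h3 : (X ^ 2 + 23 : ℚ[X]).natDegree = 2 := by compute_degree!
  have h4 : (minpoly ℚ s).natDegree ≤ 2 := by
    rw [← h3]
    apply natDegree_le_of_dvd h2
    intro h0
    rw [h0] at h3
    simp at h3
  have h5 : (minpoly ℚ s).natDegree ≠ 1 := by
    intro h6
    rw [minpoly.natDegree_eq_one_iff] at h6
    obtain ⟨q, hq⟩ := h6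
    apply no_rat q
    have : (algebraMap ℚ H) (q ^ 2) = algebraMap ℚ H (-23) := by
      rw [map_pow, hq, hs]
      simp
    exact (algebraMap ℚ H).injective this
  have h6 : 0 < (minpoly ℚ s).natDegree := minpoly.natDegree_pos (Algebra.IsIntegral.isIntegral s)
  have h7 : (minpoly ℚ s).natDegree = 2 := by omega
  rwa [h7] at h1

theorem minpoly_dvd {α : H} (h : Rt α) : minpoly ℚ α ∣ gg ℚ := by
  apply minpoly.dvd
  rw [gg_aeval]
  exact h

theorem finrank_eq_natDegree {α : H} (ht : Algebra.adjoin ℚ {α} = ⊤) :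
    finrank ℚ H = (minpoly ℚ α).natDegree := by
  have hK : IsIntegral ℚ α := Algebra.IsIntegral.isIntegral α
  let pb := (Algebra.adjoin.powerBasis' hK).map
    ((Subalgebra.equivOfEq _ _ ht).trans (Subalgebra.topEquiv))
  have pbgen : pb.gen = α := by simp [pb]
  rw [pb.finrank, ← pb.natDegree_minpoly, pbgen]

theorem finrank_six {α : H} (h : Rt α) (ht : Algebra.adjoin ℚ {α} = ⊤) : finrank ℚ H = 6 := by
  have h1 := three_dvd (tht_cube h)
  have h2 := two_dvd (sq_sq h)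
  have h3 : (minpoly ℚ α).natDegree ≤ 6 := by
    rw [← gg_natDegree ℚ]
    exact natDegree_le_of_dvd (minpoly_dvd h) (gg_monic ℚ).ne_zero
  rw [← finrank_eq_natDegree ht] at h3
  have h4 : 0 < finrank ℚ H := finrank_pos
  omega

theorem minpoly_rat {α : H} (h : Rt α) (ht : Algebra.adjoin ℚ {α} = ⊤) :
    minpoly ℚ α = gg ℚ := by
  have h1 := finrank_six h ht
  rw [finrank_eq_natDegree ht] at h1
  have h2 := minpoly_dvd h
  have h3 : (minpoly ℚ α).Monic := minpoly.monic (Algebra.IsIntegral.isIntegral α)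
  exact (eq_of_monic_of_dvd_of_natDegree_le h3 (gg_monic ℚ) h2
    (by rw [gg_natDegree, h1])).symm

theorem minpoly_int {a : 𝓞 H} (h : Rt (a : H)) (ht : Algebra.adjoin ℚ {(a : H)} = ⊤) :
    minpoly ℤ a = gg ℤ := by
  have h1 := minpoly_rat h ht
  have h2 : minpoly ℚ (a : H) = (minpoly ℤ a).map (algebraMap ℤ ℚ) :=
    minpoly.isIntegrallyClosed_eq_field_fractions ℚ H a.isIntegral
  rw [h1, ← gg_map (algebraMap ℤ ℚ)] at h2
  exact (map_injective (algebraMap ℤ ℚ) (RingHom.injective_int _) h2).symm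

end degree

end Pool.Agent.Q279.BM
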