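import Pool.Agent.Q279.BM.CertX
import Pool.Agent.Q279.BM.CertY
import Pool.Agent.Q279.BM.CertZ
import Pool.Agent.Q279.BM.CertT

/-!
# The cubic surface has no rational point
-/

set_option autoImplicit false

namespace Pool.Agent.Q279.BM

theorem nc_field {F : Type*} [Field F] {a b c : F} (h : nc a b c = 0) :
    (∃ r : F, r ^ 3 = r + 1) ∨ (a = 0 ∧ b = 0 ∧ c = 0) := by
  unfold nc at h
  by_cases hc : c = 0
  · rw [hc] at h
    by_cases hb : b = 0
    · rw [hb] at h
      right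
      refine ⟨?_, hb, hc⟩
      have : a ^ 3 = 0 := by linear_combination h
      exact pow_eq_zero_iff (by norm_num) |>.1 this
    · left
      refine ⟨-a / b, ?_⟩
      field_simp
      linear_combination -h
  · by_cases h1 : b ^ 2 - a * c - c ^ 2 = 0
    · have h0 : a * b - c ^ 2 = 0 := by
        have h2 : (a * b - c ^ 2) ^ 2 = 0 := by
          linear_combination c * h + (-b * c + a * c + a ^ 2) * h1
        exact pow_eq_zero_iff (by norm_num) |>.1 h2
      left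
      refine ⟨b / c, ?_⟩
      field_simp
      linear_combination b * h1 + c * h0
    · left
      refine ⟨-(a * b - c ^ 2) / (b ^ 2 - a * c - c ^ 2), ?_⟩
      field_simp
      linear_combination (c ^ 3 + b * c ^ 2 - b ^ 3) * h

theorem nc_cast {R S : Type*} [CommRing R] [CommRing S] (f : R →+* S) (a b c : R) :
    f (nc a b c) = nc (f a) (f b) (f c) := by
  simp [nc]

/-- If `p ∣ N(a + b θ + c θ²)` then `X³ - X - 1` has a root modulo `p`, or `p` divides `a, b, c`. -/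
theorem nc_dvd {p : ℕ} [Fact p.Prime] {a b c : ℤ} (h : (p : ℤ) ∣ nc a b c) :
    (∃ r : ZMod p, r ^ 3 = r + 1) ∨ ((p : ℤ) ∣ a ∧ (p : ℤ) ∣ b ∧ (p : ℤ) ∣ c) := by
  have h1 : nc (a : ZMod p) (b : ZMod p) (c : ZMod p) = 0 := by
    have := nc_cast (Int.castRingHom (ZMod p)) a b c
    simp only [eq_intCast] at this
    rw [← this, ZMod.intCast_zmod_eq_zero_iff_dvd]
    exact h
  rcases nc_field h1 with h2 | ⟨h2, h3, h4⟩
  · exact Or.inl h2
  · rw [ZMod.intCast_zmod_eq_zero_iff_dvd] at h2 h3 h4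
    exact Or.inr ⟨h2, h3, h4⟩

theorem no_root_two : ¬ ∃ r : ZMod 2, r ^ 3 = r + 1 := by decide

theorem no_root_three : ¬ ∃ r : ZMod 3, r ^ 3 = r + 1 := by decide

theorem two_adic : ∀ (n : ℕ) (a b c : ℤ), nc a b c ≠ 0 → (nc a b c).natAbs = n →
    ∃ (k : ℕ) (m : ℤ), nc a b c = 8 ^ k * m ∧ ¬ (2 : ℤ) ∣ m := by
  intro n
  induction n using Nat.strong_induction_on with
  | _ n ih =>
    intro a b c h0 hn
    by_cases h2 : (2 : ℤ) ∣ nc a b c
    · have hf : Fact (Nat.Prime 2) := ⟨Nat.prime_two⟩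
      rcases nc_dvd (p := 2) (by exact_mod_cast h2) with h3 | ⟨⟨a', ha⟩, ⟨b', hb⟩, ⟨c', hc⟩⟩
      · exact absurd h3 no_root_two
      · have h4 : nc a b c = 8 * nc a' b' c' := by
          rw [ha, hb, hc]
          unfold nc
          push_cast
          ring
        have h5 : nc a' b' c' ≠ 0 := by
          intro h6
          apply h0
          rw [h4, h6]
          norm_num
        have h6 : (nc a' b' c').natAbs < n := by
          rw [← hn, h4, Int.natAbs_mul]
          have : 0 < (nc a' b' c').natAbs := Int.natAbs_pos.2 h5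
          have h8 : (8 : ℤ).natAbs = 8 := rfl
          rw [h8]
          omega
        obtain ⟨k, m, hk, hm⟩ := ih _ h6 a' b' c' h5 rfl
        refine ⟨k + 1, m, ?_, hm⟩
        rw [h4, hk]
        ring
    · exact ⟨0, nc a b c, by ring, h2⟩

theorem parity_aux : ∀ x y z t : ZMod 2,
    x ^ 3 + 2 * x ^ 2 * y + y ^ 3 + y ^ 2 * z + x * z ^ 2 + z ^ 3 + t ^ 2 * x - t ^ 2 * y -
      t ^ 2 * z + t * y * z + t ^ 3 = 0 → cA x y z t = 0 → cB x y z t = 0 →
      x = 0 ∧ y = 0 ∧ z = 0 ∧ t = 0 := by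
  unfold cA cB
  decide

theorem cA_cast (x y z t : ℤ) : ((cA x y z t : ℤ) : ZMod 2) =
    cA (x : ZMod 2) (y : ZMod 2) (z : ZMod 2) (t : ZMod 2) := by
  unfold cA
  push_cast
  ring

theorem cB_cast (x y z t : ℤ) : ((cB x y z t : ℤ) : ZMod 2) =
    cB (x : ZMod 2) (y : ZMod 2) (z : ZMod 2) (t : ZMod 2) := by
  unfold cB
  push_cast
  ring

theorem parity {x y z t : ℤ} (h : FF x y z t = 0) (hA : (2 : ℤ) ∣ cA x y z t)
    (hB : (2 : ℤ) ∣ cB x y z t) : (2 : ℤ) ∣ x ∧ (2 : ℤ) ∣ y ∧ (2 : ℤ) ∣ z ∧ (2 : ℤ) ∣ t := by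
  have h1 := (ZMod.intCast_zmod_eq_zero_iff_dvd (cA x y z t) 2).2 (by exact_mod_cast hA)
  have h2 := (ZMod.intCast_zmod_eq_zero_iff_dvd (cB x y z t) 2).2 (by exact_mod_cast hB)
  rw [cA_cast] at h1
  rw [cB_cast] at h2
  have h3 : ((FF x y z t : ℤ) : ZMod 2) = 0 := by rw [h]; simp
  unfold FF at h3
  push_cast at h3
  obtain ⟨a, b, c, d⟩ := parity_aux _ _ _ _ h3 h1 h2
  refine ⟨?_, ?_, ?_, ?_⟩
  · exact_mod_cast (ZMod.intCast_zmod_eq_zero_iff_dvd x 2).1 a
  · exact_mod_cast (ZMod.intCast_zmod_eq_zero_iff_dvd y 2).1 b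
  · exact_mod_cast (ZMod.intCast_zmod_eq_zero_iff_dvd z 2).1 c
  · exact_mod_cast (ZMod.intCast_zmod_eq_zero_iff_dvd t 2).1 d

theorem elim {p : ℕ} (hp : p.Prime) {x y z t : ℤ} (h : FF x y z t = 0)
    (h0 : (p : ℤ) ∣ q0 x y z t) (h1 : (p : ℤ) ∣ q1 x y z t) (h2 : (p : ℤ) ∣ q2 x y z t) :
    p = 2 ∨ p = 3359 ∨ ((p : ℤ) ∣ x ∧ (p : ℤ) ∣ y ∧ (p : ℤ) ∣ z ∧ (p : ℤ) ∣ t) := by
  have hpi : Prime (p : ℤ) := Nat.prime_iff_prime_int.1 hp
  have key : ∀ v a b c d : ℤ, 6879232 * v ^ 6 =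
      a * q0 x y z t + b * q1 x y z t + c * q2 x y z t + d * FF x y z t →
      p = 2 ∨ p = 3359 ∨ (p : ℤ) ∣ v := by
    intro v a b c d hv
    have h3 : (p : ℤ) ∣ 6879232 * v ^ 6 := by
      rw [hv, h, mul_zero, add_zero]
      exact dvd_add (dvd_add (dvd_mul_of_dvd_right h0 _) (dvd_mul_of_dvd_right h1 _))
        (dvd_mul_of_dvd_right h2 _)
    rcases hpi.dvd_or_dvd h3 with h4 | h4
    · have h5 : p ∣ 2 ^ 11 * 3359 := by
        have : (p : ℤ) ∣ ((2 ^ 11 * 3359 : ℕ) : ℤ) := by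
          norm_num
          exact h4
        exact_mod_cast this
      rcases (Nat.Prime.dvd_mul hp).1 h5 with h6 | h6
      · left
        exact (Nat.prime_dvd_prime_iff_eq hp Nat.prime_two).1 (hp.dvd_of_dvd_pow h6)
      · right
        left
        exact (Nat.prime_dvd_prime_iff_eq hp (by norm_num)).1 h6
    · exact Or.inr (Or.inr (hpi.dvd_of_dvd_pow h4))
  rcases key x _ _ _ _ (cert_x x y z t) with h3 | h3 | h3
  · exact Or.inl h3
  · exact Or.inr (Or.inl h3)
  rcases key y _ _ _ _ (cert_y x y z t) with h4 | h4 | h4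
  · exact Or.inl h4
  · exact Or.inr (Or.inl h4)
  rcases key z _ _ _ _ (cert_z x y z t) with h5 | h5 | h5
  · exact Or.inl h5
  · exact Or.inr (Or.inl h5)
  rcases key t _ _ _ _ (cert_t x y z t) with h6 | h6 | h6
  · exact Or.inl h6
  · exact Or.inr (Or.inl h6)
  exact Or.inr (Or.inr ⟨h3, h4, h5, h6⟩)

theorem root_3359 : ∃ r : ZMod 3359, r ^ 3 = r + 1 := ⟨15, by decide⟩

theorem core {x y z t : ℤ} (h : FF x y z t = 0)
    (hprim : ∀ p : ℕ, p.Prime → ¬ ((p : ℤ) ∣ x ∧ (p : ℤ) ∣ y ∧ (p : ℤ) ∣ z ∧ (p : ℤ) ∣ t)) :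
    False := by
  obtain ⟨n, hn⟩ : ∃ n, n = nc (q0 x y z t) (q1 x y z t) (q2 x y z t) := ⟨_, rfl⟩
  have hid := norm_identity x y z t
  rw [h, zero_mul, add_zero, ← hn] at hid
  have h3 : ¬ (3 : ℤ) ∣ n := by
    intro h3
    have hf : Fact (Nat.Prime 3) := ⟨Nat.prime_three⟩
    rcases nc_dvd (p := 3) (a := q0 x y z t) (b := q1 x y z t) (c := q2 x y z t)
      (by rw [← hn]; exact_mod_cast h3) with h4 | ⟨h4, h5, h6⟩
    · exact no_root_three h4
    · rcases elim Nat.prime_three h h4 h5 h6 with h7 | h7 | h7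
      · omega
      · omega
      · exact hprim 3 Nat.prime_three h7
  have hn0 : n ≠ 0 := by
    rintro rfl
    exact h3 (dvd_zero _)
  have hnpos : 0 < n := by
    have := nf_nonneg (cA x y z t) (cB x y z t)
    rw [hid] at this
    omega
  obtain ⟨k, m, hk, hm⟩ := two_adic _ _ _ _ (by rw [← hn]; exact hn0) rfl
  rw [← hn] at hk
  have h8 : (0 : ℤ) < 8 ^ k := by positivity
  have hmpos : 0 < m := by
    by_contra hneg
    push Not at hneg
    nlinarith
  obtain ⟨M, hM⟩ : ∃ M : ℕ, (M : ℤ) = m := ⟨m.toNat, Int.toNat_of_nonneg hmpos.le⟩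
  have hM0 : M ≠ 0 := by
    rintro rfl
    simp at hM
    omega
  refine descent M hM0 ?_ k (cA x y z t) (cB x y z t) ?_ ?_
  · intro p hp hpM
    have hf : Fact p.Prime := ⟨hp⟩
    have hpm : (p : ℤ) ∣ m := by
      rw [← hM]
      exact_mod_cast hpM
    have hpn : (p : ℤ) ∣ n := by
      rw [hk]
      exact dvd_mul_of_dvd_right hpm _
    have hp2 : p ≠ 2 := by
      rintro rfl
      exact hm (by exact_mod_cast hpm)
    have hp3 : p ≠ 3 := by
      rintro rfl
      exact h3 (by exact_mod_cast hpn)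
    have hp5 : 5 ≤ p := by
      have h1 := hp.two_le
      by_contra hlt
      have h4 : p = 4 := by omega
      rw [h4] at hp
      revert hp
      norm_num
    refine ⟨hp5, ?_⟩
    rcases nc_dvd (p := p) (a := q0 x y z t) (b := q1 x y z t) (c := q2 x y z t)
      (by rw [← hn]; exact hpn) with h4 | ⟨h4, h5, h6⟩
    · exact h4
    · rcases elim hp h h4 h5 h6 with h7 | h7 | h7
      · exact absurd h7 hp2
      · subst h7
        exact root_3359
      · exact absurd h7 (hprim p hp)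
  · rw [hid, hk, hM]
    ring
  · rintro ⟨hA, hB⟩
    exact hprim 2 Nat.prime_two (by exact_mod_cast parity h hA hB)

theorem main : ∀ (n : ℕ) (x y z t : ℤ), x.natAbs + y.natAbs + z.natAbs + t.natAbs = n →
    FF x y z t = 0 → x = 0 ∧ y = 0 ∧ z = 0 ∧ t = 0 := by
  intro n
  induction n using Nat.strong_induction_on with
  | _ n ih =>
    intro x y z t hn h
    by_cases hex : ∃ p : ℕ, p.Prime ∧ (p : ℤ) ∣ x ∧ (p : ℤ) ∣ y ∧ (p : ℤ) ∣ z ∧ (p : ℤ) ∣ t
    · obtain ⟨p, hp, ⟨a, ha⟩, ⟨b, hb⟩, ⟨c, hc⟩, ⟨d, hd⟩⟩ := hex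
      by_cases h0 : a.natAbs + b.natAbs + c.natAbs + d.natAbs = 0
      · have h1 : a = 0 := by omega
        have h2 : b = 0 := by omega
        have h3 : c = 0 := by omega
        have h4 : d = 0 := by omega
        rw [ha, hb, hc, hd, h1, h2, h3, h4]
        simp
      · have hF : FF a b c d = 0 := by
          have h1 : FF x y z t = (p : ℤ) ^ 3 * FF a b c d := by
            rw [ha, hb, hc, hd]
            unfold FF
            ring
          rw [h1] at h
          have hp0 : (p : ℤ) ^ 3 ≠ 0 := pow_ne_zero 3 (by exact_mod_cast hp.ne_zero)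
          exact (mul_eq_zero.1 h).resolve_left hp0
        have hlt : a.natAbs + b.natAbs + c.natAbs + d.natAbs < n := by
          rw [← hn, ha, hb, hc, hd]
          simp only [Int.natAbs_mul, Int.natAbs_natCast]
          have := hp.two_le
          rw [← mul_add, ← mul_add, ← mul_add]
          nlinarith [Nat.pos_of_ne_zero h0]
        obtain ⟨h1, h2, h3, h4⟩ := ih _ hlt a b c d rfl hF
        rw [ha, hb, hc, hd, h1, h2, h3, h4]
        simp
    · exfalso
      apply core h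
      intro p hp hd
      exact hex ⟨p, hp, hd⟩

end Pool.Agent.Q279.BM
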