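import Pool.Agent.Q279.BM.Prime

/-!
# Norms from a field containing `√-23` are values of `u² + u v + 6 v²`
-/

set_option autoImplicit false

namespace Pool.Agent.Q279.BM

open Polynomial NumberField Ideal Module QuadraticAlgebra
open scoped nonZeroDivisors Real

instance fact23 : Fact (∀ r : ℚ, r ^ 2 ≠ (-23) + 0 * r) := ⟨fun r h => by
  nlinarith [sq_nonneg r]⟩

/-- the field `ℚ(√-23)` -/
abbrev KK : Type := QuadraticAlgebra ℚ (-23) 0

theorem int_of_sq {y : ℚ} {n : ℤ} (h : 23 * y ^ 2 = n) : ∃ m : ℤ, y = m := by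
  have h1 : (23 * y) ^ 2 = ((23 * n : ℤ) : ℚ) := by
    push_cast
    linear_combination 23 * h
  have h2 : ∃ m : ℤ, 23 * y = m := by
    have h3 : IsIntegral ℤ ((23 * y) ^ 2) := by
      rw [h1]
      exact isIntegral_algebraMap (R := ℤ) (A := ℚ) (x := 23 * n)
    have h4 : IsIntegral ℤ (23 * y) := IsIntegral.of_pow (by norm_num : 0 < 2) h3
    obtain ⟨m, hm⟩ := IsIntegrallyClosed.isIntegral_iff.1 h4
    exact ⟨m, hm.symm⟩
  obtain ⟨m, hm⟩ := h2
  have h5 : m ^ 2 = 23 * n := by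
    have : ((m ^ 2 : ℤ) : ℚ) = ((23 * n : ℤ) : ℚ) := by
      rw [← h1, hm]
      push_cast
      ring
    exact_mod_cast this
  have h6 : (23 : ℤ) ∣ m := by
    have hp : Prime (23 : ℤ) := by
      exact Int.prime_iff_natAbs_prime.2 (by norm_num)
    exact hp.dvd_of_dvd_pow ⟨n, h5⟩
  obtain ⟨k, hk⟩ := h6
  refine ⟨k, ?_⟩
  rw [hk] at hm
  push_cast at hm
  linarith

/-- the inclusion of `ℚ` -/
def iota : ℚ →+* KK where
  toFun x := ⟨x, 0⟩
  map_one' := rfl
  map_mul' x y := by ext <;> simp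
  map_zero' := rfl
  map_add' x y := by ext <;> simp

theorem iota_int {x : ℚ} (h : IsIntegral ℤ (iota x)) : IsIntegral ℤ x :=
  (isIntegral_algHom_iff iota.toIntAlgHom iota.injective).1 h

theorem norm_form {d : KK} (hd : IsIntegral ℤ d) :
    ∃ u v : ℤ, QuadraticAlgebra.norm d = ((u ^ 2 + u * v + 6 * v ^ 2 : ℤ) : ℚ) := by
  have h1 : IsIntegral ℤ (star d) := by
    have := hd.map (starRingAut (R := KK)).toRingHom.toIntAlgHom
    exact this
  have h2 : IsIntegral ℤ (iota (trace d)) := by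
    have e : iota (trace d) = d + star d := algebraMap_trace_eq_add_star d
    rw [e]
    exact hd.add h1
  have h3 : IsIntegral ℤ (iota (QuadraticAlgebra.norm d)) := by
    have e : iota (QuadraticAlgebra.norm d) = d * star d := algebraMap_norm_eq_mul_star d
    rw [e]
    exact hd.mul h1
  have h4 : IsIntegral ℤ (trace d) := iota_int h2
  have h5 : IsIntegral ℤ (QuadraticAlgebra.norm d) := iota_int h3
  obtain ⟨t, ht⟩ := IsIntegrallyClosed.isIntegral_iff.1 h4
  obtain ⟨n, hn⟩ := IsIntegrallyClosed.isIntegral_iff.1 h5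
  have ht' : trace d = t := by simpa using ht.symm
  have hn' : QuadraticAlgebra.norm d = n := by simpa using hn.symm
  rw [trace_def] at ht'
  rw [norm_def] at hn'
  have h6 : 23 * (2 * d.im) ^ 2 = ((4 * n - t ^ 2 : ℤ) : ℚ) := by
    push_cast
    rw [← ht', ← hn']
    ring
  obtain ⟨m, hm⟩ := int_of_sq h6
  have h7 : t ^ 2 + 23 * m ^ 2 = 4 * n := by
    have : ((t ^ 2 + 23 * m ^ 2 : ℤ) : ℚ) = ((4 * n : ℤ) : ℚ) := by
      push_cast
      rw [← hm]
      push_cast at h6
      linear_combination h6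
    exact_mod_cast this
  have h8 : (t + m) % 2 = 0 := by
    rcases Int.even_or_odd t with ⟨a, ha⟩ | ⟨a, ha⟩ <;>
    rcases Int.even_or_odd m with ⟨b, hb⟩ | ⟨b, hb⟩
    · omega
    · exfalso
      rw [ha, hb] at h7
      ring_nf at h7
      omega
    · exfalso
      rw [ha, hb] at h7
      ring_nf at h7
      omega
    · omega
  obtain ⟨u, hu⟩ : ∃ u, t = 2 * u + m := ⟨(t - m) / 2, by omega⟩
  refine ⟨u, m, ?_⟩
  rw [norm_def, hn']
  have : n = u ^ 2 + u * m + 6 * m ^ 2 := by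
    rw [hu] at h7
    nlinarith
  rw [this]

variable {H : Type*} [Field H] [NumberField H]

theorem alg_norm (i : Algebra ℚ KK) (z : KK) :
    @Algebra.norm ℚ KK _ _ i z = QuadraticAlgebra.norm z := by
  obtain rfl : i = QuadraticAlgebra.instAlgebra := Subsingleton.elim _ _
  rw [← det_toLinearMap_eq_norm, Algebra.norm_apply]
  congr 1

theorem norm_eq_form {s : H} (hs : s ^ 2 = -23) (y : 𝓞 H) :
    ∃ u v : ℤ, Algebra.norm ℤ y = u ^ 2 + u * v + 6 * v ^ 2 := by
  let f : KK →+* H := (QuadraticAlgebra.lift (R := ℚ) (a := -23) (b := 0) ⟨s, by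
    rw [← pow_two, hs]
    simp [Algebra.smul_def, map_ofNat]⟩).toRingHom
  let iA : Algebra KK H := f.toAlgebra
  have iT : IsScalarTower ℚ KK H := IsScalarTower.of_algebraMap_eq' (Subsingleton.elim _ _)
  have iF : FiniteDimensional KK H := FiniteDimensional.right ℚ KK H
  have h1 : IsIntegral ℤ (y : H) := y.isIntegral_coe
  have h2 : IsIntegral ℤ (Algebra.norm KK (y : H)) := Algebra.isIntegral_norm KK h1
  obtain ⟨u, v, huv⟩ := norm_form h2
  refine ⟨u, v, ?_⟩
  have h3 : Algebra.norm ℚ (Algebra.norm KK (y : H)) = Algebra.norm ℚ (y : H) :=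
    Algebra.norm_norm
  rw [alg_norm, huv, ← Algebra.coe_norm_int] at h3
  exact_mod_cast h3.symm

end Pool.Agent.Q279.BM
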