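import Pool.Agent.Q279.BM.Field

/-!
# The ring of integers of the Hilbert class field of `ℚ(√-23)` is a principal ideal domain
-/

set_option autoImplicit false

namespace Pool.Agent.Q279.BM

open Polynomial NumberField Ideal Module
open scoped nonZeroDivisors Real

variable {H : Type*} [Field H] [NumberField H]

theorem rt_int {a : 𝓞 H} (h : Rt (a : H)) : Rt a := by
  unfold Rt at *
  apply RingOfIntegers.coe_injective
  simpa [map_ofNat] using h

theorem norm_neg {a : 𝓞 H} (h : Rt (a : H)) (ht : Algebra.adjoin ℚ {(a : H)} = ⊤) :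
    (Algebra.norm ℤ (sq a)) ^ 2 = (-23) ^ 6 := by
  have h1 : (-23 : 𝓞 H) = algebraMap ℤ (𝓞 H) (-23) := by simp
  rw [← map_pow, sq_sq (rt_int h), h1, Algebra.norm_algebraMap, RingOfIntegers.rank,
    finrank_six h ht]

theorem norm_sq {a : 𝓞 H} (h : Rt (a : H)) (ht : Algebra.adjoin ℚ {(a : H)} = ⊤) :
    (Algebra.norm ℤ (sq a)).natAbs = 12167 := by
  have h1 := norm_neg h ht
  have h2 : (Algebra.norm ℤ (sq a)).natAbs ^ 2 = 12167 ^ 2 := by
    zify
    rw [sq_abs, h1]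
    norm_num
  exact Nat.pow_left_injective (by norm_num : 2 ≠ 0) h2

theorem norm_unit {a : 𝓞 H} (h : Rt (a : H)) :
    (Algebra.norm ℤ (a ^ 4 - 2 * a ^ 3 + 3 * a ^ 2 - 2 * a + 1)).natAbs = 1 := by
  have h1 := unit_eq (rt_int h)
  have h2 : IsUnit (Algebra.norm ℤ (a ^ 4 - 2 * a ^ 3 + 3 * a ^ 2 - 2 * a + 1)) :=
    (IsUnit.of_mul_eq_one _ h1).map _
  exact Int.isUnit_iff_natAbs_eq.1 h2

theorem deriv_mem {a : 𝓞 H} (h : Rt (a : H)) (ht : Algebra.adjoin ℚ {(a : H)} = ⊤) :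
    aeval a (derivative (minpoly ℤ a)) =
      (a ^ 4 - 2 * a ^ 3 + 3 * a ^ 2 - 2 * a + 1) * sq a := by
  rw [minpoly_int h ht, gg_deriv_aeval, deriv_eq (rt_int h)]

theorem discr_dvd {a : 𝓞 H} (h : Rt (a : H)) (ht : Algebra.adjoin ℚ {(a : H)} = ⊤) :
    (discr H).natAbs ∣ 12167 := by
  have h1 : aeval a (derivative (minpoly ℤ a)) ∈ differentIdeal ℤ (𝓞 H) :=
    aeval_derivative_mem_differentIdeal ℤ ℚ H a ht
  have h2 := absNorm_dvd_absNorm_of_le ((span_singleton_le_iff_mem _).2 h1)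
  rw [absNorm_differentIdeal (K := H), absNorm_span_singleton, deriv_mem h ht, map_mul,
    Int.natAbs_mul, norm_unit h, norm_sq h ht, one_mul] at h2
  exact h2

theorem isTotallyComplex {s : H} (hs : s ^ 2 = -23) : IsTotallyComplex H := by
  refine ⟨fun v => ?_⟩
  by_contra hv
  rw [InfinitePlace.not_isComplex_iff_isReal] at hv
  have h1 : (InfinitePlace.embedding_of_isReal hv s) ^ 2 = -23 := by
    rw [← map_pow, hs]
    simp [map_ofNat]
  nlinarith [sq_nonneg (InfinitePlace.embedding_of_isReal hv s)]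

theorem complexPlaces {a : 𝓞 H} (h : Rt (a : H)) (ht : Algebra.adjoin ℚ {(a : H)} = ⊤) :
    InfinitePlace.nrComplexPlaces H = 3 := by
  have := isTotallyComplex (sq_sq h)
  have h1 := IsTotallyComplex.finrank H
  rw [finrank_six h ht] at h1
  omega

theorem mink {a : 𝓞 H} (h : Rt (a : H)) (ht : Algebra.adjoin ℚ {(a : H)} = ⊤) :
    (4 / π) ^ InfinitePlace.nrComplexPlaces H *
      ((finrank ℚ H).factorial / (finrank ℚ H) ^ (finrank ℚ H) * √|discr H|) < 4 := by
  rw [complexPlaces h ht, finrank_six h ht]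
  have h1 : |discr H| ≤ 12167 := by
    rw [Int.abs_eq_natAbs]
    exact_mod_cast Nat.le_of_dvd (by norm_num) (discr_dvd h ht)
  have h2 : √|(discr H : ℝ)| ≤ 111 := by
    rw [Real.sqrt_le_left (by norm_num)]
    have : |(discr H : ℝ)| ≤ 12167 := by exact_mod_cast h1
    linarith
  have h3 : 4 / π ≤ 4 / 3.14 := by
    apply div_le_div_of_nonneg_left (by norm_num) (by norm_num)
    exact Real.pi_gt_d2.le
  have h4 : (4 / π) ^ 3 ≤ (4 / 3.14) ^ 3 := by
    apply pow_le_pow_left₀ _ h3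
    positivity
  have h5 : ((6 : ℕ).factorial : ℝ) / ((6 : ℕ) : ℝ) ^ 6 * √|(discr H : ℝ)| ≤
      ((6 : ℕ).factorial : ℝ) / ((6 : ℕ) : ℝ) ^ 6 * 111 := by
    apply mul_le_mul_of_nonneg_left h2
    positivity
  calc (4 / π) ^ 3 * (((6 : ℕ).factorial : ℝ) / ((6 : ℕ) : ℝ) ^ 6 * √|(discr H : ℝ)|) ≤
      (4 / 3.14) ^ 3 * (((6 : ℕ).factorial : ℝ) / ((6 : ℕ) : ℝ) ^ 6 * 111) := by
        apply mul_le_mul h4 h5 (by positivity) (by positivity)
    _ < 4 := by
        norm_num [Nat.factorial]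

theorem no_small {a : 𝓞 H} (h : Rt (a : H)) {I : Ideal (𝓞 H)} (hI : I.IsPrime) (h0 : I ≠ ⊥)
    (hn : absNorm I < 4) : False := by
  have hmax : I.IsMaximal := hI.isMaximal h0
  letI := Ideal.Quotient.field I
  have hne : absNorm I ≠ 0 := by
    rw [Ne, absNorm_eq_zero_iff]
    exact h0
  haveI : Finite (𝓞 H ⧸ I) := by
    rw [absNorm_apply, Submodule.cardQuot_apply] at hne
    exact Nat.finite_of_card_ne_zero hne
  haveI : Fintype (𝓞 H ⧸ I) := Fintype.ofFinite _
  have hc : Fintype.card (𝓞 H ⧸ I) = absNorm I := by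
    rw [absNorm_apply, Submodule.cardQuot_apply, Nat.card_eq_fintype_card]
  have h1 : absNorm I ≠ 1 := by
    rw [Ne, absNorm_eq_one_iff]
    exact hI.ne_top
  have ht := tht_cube (rt_int h)
  have ht' : (Ideal.Quotient.mk I (tht a)) ^ 3 = Ideal.Quotient.mk I (tht a) + 1 := by
    rw [← map_pow, ht, map_add, map_one]
  have hp := FiniteField.pow_card (Ideal.Quotient.mk I (tht a))
  rw [hc] at hp
  have h01 : (0 : 𝓞 H ⧸ I) ≠ 1 := zero_ne_one
  interval_cases hx : absNorm I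
  · exact hne rfl
  · exact h1 rfl
  · apply h01
    have : (Ideal.Quotient.mk I (tht a)) ^ 3 = Ideal.Quotient.mk I (tht a) := by
      rw [pow_succ, hp, ← pow_two, hp]
    rw [this] at ht'
    simpa using ht'
  · apply h01
    rw [hp] at ht'
    simpa using ht'

theorem pid {a : 𝓞 H} (h : Rt (a : H)) (ht : Algebra.adjoin ℚ {(a : H)} = ⊤) :
    IsPrincipalIdealRing (𝓞 H) := by
  apply RingOfIntegers.isPrincipalIdealRing_of_isPrincipal_of_norm_le_of_isPrime
  intro I hI hn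
  exfalso
  have h1 := lt_of_le_of_lt hn (mink h ht)
  apply no_small h hI (nonZeroDivisors.coe_ne_zero I)
  exact_mod_cast h1

end Pool.Agent.Q279.BM
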