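import Pool.Agent.Q279.BM.Pid

/-!
# Primes that split in the Hilbert class field of `ℚ(√-23)` are norms
-/

set_option autoImplicit false

namespace Pool.Agent.Q279.BM

open Polynomial NumberField Ideal Module
open scoped nonZeroDivisors Real

variable {H : Type*} [Field H] [NumberField H]

theorem mem_of_mul {R : Type*} [CommRing R] {I J : Ideal R} {x : R}
    (h : I * J = Ideal.span {x}) : x ∈ I := by
  have h3 : x ∈ Ideal.span {x} := Ideal.mem_span_singleton_self _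
  rw [← h] at h3
  exact Ideal.mul_le_left h3

theorem mem_conductor {a : 𝓞 H} (h : Rt (a : H)) (ht : Algebra.adjoin ℚ {(a : H)} = ⊤) :
    (23 : 𝓞 H) ∈ conductor ℤ a := by
  have h1 := conductor_mul_differentIdeal ℤ ℚ H a ht
  have h2 := mem_of_mul h1
  rw [deriv_mem h ht] at h2
  have h4 := (conductor ℤ a).mul_mem_left
    (-(2 * a ^ 4 - 4 * a ^ 3 + 5 * a ^ 2 - 3 * a + 4) * sq a) h2
  have h5 := unit_eq (rt_int h)
  have h6 := sq_sq (rt_int h)
  have h7 : -(2 * a ^ 4 - 4 * a ^ 3 + 5 * a ^ 2 - 3 * a + 4) * sq a *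
      ((a ^ 4 - 2 * a ^ 3 + 3 * a ^ 2 - 2 * a + 1) * sq a) = 23 := by
    linear_combination (-sq a ^ 2) * h5 - h6
  rwa [h7] at h4

theorem not_dvd_exp {a : 𝓞 H} (h : Rt (a : H)) (ht : Algebra.adjoin ℚ {(a : H)} = ⊤)
    {p : ℕ} [Fact p.Prime] (hp : p ≠ 23) : ¬ p ∣ RingOfIntegers.exponent a := by
  rw [RingOfIntegers.not_dvd_exponent_iff, codisjoint_iff, Ideal.eq_top_iff_one]
  have hc : IsCoprime (23 : ℤ) (p : ℤ) := by
    have : Nat.Coprime 23 p := (Nat.coprime_primes (by norm_num) Fact.out).2 (Ne.symm hp)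
    exact_mod_cast Nat.isCoprime_iff_coprime.2 this
  obtain ⟨u, v, huv⟩ := hc
  rw [← huv]
  apply Submodule.add_mem_sup
  · apply Ideal.mul_mem_left
    rw [Ideal.mem_comap]
    have := mem_conductor h ht
    simpa [map_ofNat] using this
  · apply Ideal.mul_mem_left
    exact Ideal.mem_span_singleton_self _

theorem exists_elem {a : 𝓞 H} (h : Rt (a : H)) (ht : Algebra.adjoin ℚ {(a : H)} = ⊤)
    {p : ℕ} [Fact p.Prime] (hp : p ≠ 23) {c : ZMod p} (hc : Rt c) :
    ∃ y : 𝓞 H, (Algebra.norm ℤ y).natAbs = p := by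
  have hexp := not_dvd_exp h ht hp
  have hQ : (X - C c : (ZMod p)[X]) ∈ RingOfIntegers.monicFactorsMod a p := by
    rw [Multiset.mem_toFinset, minpoly_int h ht, gg_map,
      Polynomial.mem_normalizedFactors_iff (gg_monic _).ne_zero]
    refine ⟨irreducible_X_sub_C c, monic_X_sub_C c, ?_⟩
    rw [dvd_iff_isRoot, IsRoot, ← coe_aeval_eq_eval, gg_aeval]
    exact hc
  have hdeg := NumberField.Ideal.inertiaDeg_primesOverSpanEquivMonicFactorsMod_symm_apply' hexp hQ
  rw [natDegree_X_sub_C] at hdeg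
  set P := (NumberField.Ideal.primesOverSpanEquivMonicFactorsMod hexp).symm ⟨X - C c, hQ⟩ with hP
  have h1 : (P : Ideal (𝓞 H)).IsPrime := P.2.1
  have h2 : (P : Ideal (𝓞 H)).LiesOver (span {(p : ℤ)}) := P.2.2
  have h3 : p ^ (P : Ideal (𝓞 H)).inertiaDeg ℤ = absNorm (P : Ideal (𝓞 H)) := pow_inertiaDeg p _
  rw [hdeg, pow_one] at h3
  have h4 := (pid h ht).principal (P : Ideal (𝓞 H))
  obtain ⟨y, hy⟩ := h4
  refine ⟨y, ?_⟩
  rw [← absNorm_span_singleton, h3]
  congr 1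
  exact hy.symm

end Pool.Agent.Q279.BM
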